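import Pool.Agent.H5.AG.VFM

/-! # MP_c59857_nt, board gap_modules, row VWN: change of the windows -/

set_option autoImplicit false

open Finset

namespace Pool.Agent.H5.AG

open Pool.Agent.H24.AG

theorem fj_nonneg (H : ℕ) (t : ℤ) : 0 ≤ fj H t :=
  div_nonneg (le_max_left _ _) (Nat.cast_nonneg H)

theorem sum_fj {H : ℕ} (hH : 0 < H) : ∑ t ∈ Icc (-(H : ℤ)) H, fj H t = 1 := by
  have h := fejer_eq (fun _ => 1) hH
  simp only [mul_one] at h
  rw [h]
  have hH' : (H : ℝ) ≠ 0 := Nat.cast_ne_zero.2 hH.ne'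
  simp only [sum_const, card_range, nsmul_eq_mul, mul_one]
  field_simp

theorem sum_prod_fj (j : ℕ) (H : Fin j → ℕ) (hH : ∀ i, 0 < H i) :
    ∑ t ∈ Fintype.piFinset (fun i => Icc (-(H i : ℤ)) (H i)), ∏ i, fj (H i) (t i) = 1 := by
  rw [← prod_univ_sum (fun i => Icc (-(H i : ℤ)) (H i)) (fun i t => fj (H i) t)]
  exact prod_eq_one fun i _ => sum_fj (hH i)

theorem FJ_succ (j : ℕ) (H : Fin (j + 1) → ℕ) (v : (Fin (j + 1) → ℤ) → ℝ) :
    FJ (j + 1) H v = ∑ s ∈ Icc (-(H 0 : ℤ)) (H 0), fj (H 0) s *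
      FJ j (Fin.tail H) (fun t => v (Fin.cons s t)) := by
  unfold FJ
  simp only [mul_sum]
  rw [← sum_product']
  symm
  refine sum_bij' (fun p _ => Fin.cons p.1 p.2) (fun t _ => (t 0, Fin.tail t)) ?_ ?_ ?_ ?_ ?_
  · intro p hp
    obtain ⟨h1, h2⟩ := mem_product.1 hp
    rw [Fintype.mem_piFinset] at h2 ⊢
    intro i
    refine Fin.cases ?_ (fun i => ?_) i
    · exact h1
    · exact h2 i
  · intro t ht
    rw [Fintype.mem_piFinset] at ht
    refine mem_product.2 ⟨ht 0, Fintype.mem_piFinset.2 fun i => ht i.succ⟩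
  · intro p _
    simp
  · intro t _
    simp
  · intro p _
    rw [Fin.prod_univ_succ]
    simp only [Fin.cons_zero, Fin.cons_succ, Fin.tail]
    ring

/-- the comparison -/
theorem FJ_le (j : ℕ) : ∀ (v : (Fin j → ℤ) → ℝ),
    (∀ (t : Fin j → ℤ) (i : Fin j), PDf fun s => v (Function.update t i s)) →
    (∀ t, |v t| ≤ 1) → ∀ (H H' : Fin j → ℕ) (e : Fin j → ℝ), (∀ i, 0 < H i) → (∀ i, 0 < H' i) →
    (∀ i, ∀ r : ℤ → ℝ, PDf r → (∀ n, |r n| ≤ 1) →
      ∑ t ∈ Icc (-(H' i : ℤ)) (H' i), fj (H' i) t * r t ≤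
        ∑ t ∈ Icc (-(H i : ℤ)) (H i), fj (H i) t * r t + e i) →
    FJ j H' v ≤ FJ j H v + ∑ i, e i := by
  induction j with
  | zero =>
    intro v _ _ H H' e _ _ _
    have h : H' = H := Subsingleton.elim _ _
    rw [h]
    simp
  | succ j ih =>
    intro v hv hv1 H H' e hH hH' he
    have h1 : ∀ s : ℤ, FJ j (Fin.tail H') (fun t => v (Fin.cons s t)) ≤
        FJ j (Fin.tail H) (fun t => v (Fin.cons s t)) + ∑ i : Fin j, e i.succ := by
      intro s
      refine ih _ (fun t i => ?_) (fun t => hv1 _) (Fin.tail H) (Fin.tail H') _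
        (fun i => hH i.succ) (fun i => hH' i.succ) (fun i => he i.succ)
      have h := hv (Fin.cons s t) i.succ
      have h2 : (fun x => v (Function.update (Fin.cons s t : Fin (j + 1) → ℤ) i.succ x)) =
          fun x => v (Fin.cons s (Function.update t i x)) := by
        funext x
        rw [Fin.cons_update]
      rwa [h2] at h
    have h2 : ∀ t : Fin j → ℤ, ∑ s ∈ Icc (-(H' 0 : ℤ)) (H' 0), fj (H' 0) s * v (Fin.cons s t) ≤
        ∑ s ∈ Icc (-(H 0 : ℤ)) (H 0), fj (H 0) s * v (Fin.cons s t) + e 0 := by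
      intro t
      refine he 0 _ ?_ (fun n => hv1 _)
      have h := hv (Fin.cons 0 t) 0
      have h3 : (fun x => v (Function.update (Fin.cons 0 t : Fin (j + 1) → ℤ) 0 x)) =
          fun x => v (Fin.cons x t) := by
        funext x
        rw [Fin.update_cons_zero]
      rwa [h3] at h
    -- the tail
    have h3 : FJ (j + 1) H' v ≤ ∑ s ∈ Icc (-(H' 0 : ℤ)) (H' 0), fj (H' 0) s *
        FJ j (Fin.tail H) (fun t => v (Fin.cons s t)) + ∑ i : Fin j, e i.succ := by
      rw [FJ_succ]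
      calc ∑ s ∈ Icc (-(H' 0 : ℤ)) (H' 0), fj (H' 0) s *
            FJ j (Fin.tail H') (fun t => v (Fin.cons s t))
          ≤ ∑ s ∈ Icc (-(H' 0 : ℤ)) (H' 0), fj (H' 0) s *
            (FJ j (Fin.tail H) (fun t => v (Fin.cons s t)) + ∑ i : Fin j, e i.succ) :=
            sum_le_sum fun s _ => mul_le_mul_of_nonneg_left (h1 s) (fj_nonneg _ _)
        _ = _ := by
            simp only [mul_add, sum_add_distrib, ← sum_mul]
            rw [sum_fj (hH' 0), one_mul]
    -- the first coordinate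
    have h4 : ∀ L : ℕ, ∑ s ∈ Icc (-(L : ℤ)) L, fj L s *
        FJ j (Fin.tail H) (fun t => v (Fin.cons s t)) =
        ∑ t ∈ Fintype.piFinset (fun i => Icc (-(Fin.tail H i : ℤ)) (Fin.tail H i)),
          (∏ i, fj (Fin.tail H i) (t i)) * ∑ s ∈ Icc (-(L : ℤ)) L, fj L s * v (Fin.cons s t) := by
      intro L
      unfold FJ
      simp only [mul_sum]
      rw [sum_comm]
      refine sum_congr rfl fun t _ => sum_congr rfl fun s _ => ?_
      ring
    have h5 : ∑ s ∈ Icc (-(H' 0 : ℤ)) (H' 0), fj (H' 0) s *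
        FJ j (Fin.tail H) (fun t => v (Fin.cons s t)) ≤
        ∑ s ∈ Icc (-(H 0 : ℤ)) (H 0), fj (H 0) s *
        FJ j (Fin.tail H) (fun t => v (Fin.cons s t)) + e 0 := by
      rw [h4, h4]
      calc _ ≤ ∑ t ∈ Fintype.piFinset (fun i => Icc (-(Fin.tail H i : ℤ)) (Fin.tail H i)),
            (∏ i, fj (Fin.tail H i) (t i)) *
              (∑ s ∈ Icc (-(H 0 : ℤ)) (H 0), fj (H 0) s * v (Fin.cons s t) + e 0) :=
            sum_le_sum fun t _ => mul_le_mul_of_nonneg_left (h2 t)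
              (prod_nonneg fun i _ => fj_nonneg _ _)
        _ = _ := by
            simp only [mul_add, sum_add_distrib, ← sum_mul]
            rw [sum_prod_fj j (Fin.tail H) (fun i => hH i.succ), one_mul]
    rw [FJ_succ j H v, Fin.sum_univ_succ]
    linarith

/-- VWN -/
theorem pf_VWN : T_VWN := by
  intro j v hv hv1 H hH
  constructor
  · intro K hK
    have h := FJ_le j v hv hv1 H (fun i => H i * K i) (fun _ => 0) hH
      (fun i => Nat.mul_pos (hH i) (hK i)) (fun i r hr hr1 => by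
        rw [add_zero]
        exact (pf_VFM r hr hr1 (H i) (hH i)).2.1 (K i) (hK i))
    simpa using h
  · intro N hN
    exact FJ_le j v hv hv1 H (fun _ => N) (fun i => 4 * (H i : ℝ) / N) hH (fun _ => hN)
      (fun i r hr hr1 => (pf_VFM r hr hr1 (H i) (hH i)).2.2 N hN)

end Pool.Agent.H5.AG
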