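import Pool.Agent.H24.AG.Targets

/-! # MP_c59857_nt, board gap_modules, row VFM: Fejer averages of positive definite sequences -/

set_option autoImplicit false

open Finset

namespace Pool.Agent.H5.AG

open Pool.Agent.H24.AG

/-- positive definiteness for families -/
theorem pd_fam {r : ℤ → ℝ} (hr : PDf r) {ι : Type} [Fintype ι] (x : ι → ℤ) (c : ι → ℝ) :
    0 ≤ ∑ u, ∑ v, c u * c v * r (x u - x v) := by
  classical
  have h := hr.2 (univ.image x) (fun i => ∑ u with x u = i, c u)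
  have hm : ∀ u ∈ (univ : Finset ι), x u ∈ univ.image x := fun u _ => mem_image_of_mem _ (mem_univ u)
  have h1 : ∑ i ∈ univ.image x, ∑ j ∈ univ.image x,
      (∑ u with x u = i, c u) * (∑ v with x v = j, c v) * r (i - j) =
      ∑ u, ∑ v, c u * c v * r (x u - x v) := by
    rw [← sum_fiberwise_of_maps_to hm]
    refine sum_congr rfl fun i _ => ?_
    have h2 : ∀ u ∈ univ.filter (fun u => x u = i), ∑ v, c u * c v * r (x u - x v) =
        ∑ j ∈ univ.image x, c u * (∑ v with x v = j, c v) * r (i - j) := by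
      intro u hu
      rw [← sum_fiberwise_of_maps_to hm]
      refine sum_congr rfl fun j _ => ?_
      rw [mul_sum, sum_mul]
      refine sum_congr rfl fun v hv => ?_
      rw [(mem_filter.1 hu).2, (mem_filter.1 hv).2]
    rw [sum_congr rfl h2, sum_comm]
    refine sum_congr rfl fun j _ => ?_
    rw [sum_mul, sum_mul]
  rw [← h1]
  exact h

/-- the mean inequality -/
theorem pd_mean {r : ℤ → ℝ} (hr : PDf r) (H : ℕ) (x y : ℕ → ℤ) :
    2 * ∑ a ∈ range H, ∑ b ∈ range H, r (x a - y b) ≤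
      (∑ a ∈ range H, ∑ b ∈ range H, r (x a - x b)) +
        ∑ a ∈ range H, ∑ b ∈ range H, r (y a - y b) := by
  have h := pd_fam hr (ι := Fin H ⊕ Fin H) (Sum.elim (fun a => x a) (fun a => y a))
    (Sum.elim (fun _ => 1) (fun _ => -1))
  simp only [Fintype.sum_sum_type, Sum.elim_inl, Sum.elim_inr, mul_one, one_mul, mul_neg,
    neg_mul, sum_neg_distrib, sum_add_distrib] at h
  have hsym : ∑ a : Fin H, ∑ b : Fin H, r (y a - x b) = ∑ a : Fin H, ∑ b : Fin H, r (x a - y b) := by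
    rw [sum_comm]
    refine sum_congr rfl fun a _ => sum_congr rfl fun b _ => ?_
    rw [← hr.1, neg_sub]
  rw [hsym] at h
  simp only [sum_range]
  linarith

/-- the number of pairs with a given difference -/
theorem card_diff (H : ℕ) (t : ℤ) (ht : |t| ≤ H) :
    (((range H ×ˢ range H).filter fun p : ℕ × ℕ => (p.1 : ℤ) - p.2 = t).card : ℝ) =
      H - |(t : ℝ)| := by
  rcases Int.eq_nat_or_neg t with ⟨n, rfl | rfl⟩
  · have hn : n ≤ H := by
      rw [abs_of_nonneg (Int.natCast_nonneg n)] at ht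
      exact_mod_cast ht
    have h1 : ((range H ×ˢ range H).filter fun p : ℕ × ℕ => (p.1 : ℤ) - p.2 = (n : ℤ)).card =
        (range (H - n)).card := by
      refine card_bij' (fun p _ => p.2) (fun a _ => (a + n, a)) ?_ ?_ ?_ ?_
      · intro p hp
        simp only [mem_filter, mem_product, mem_range] at hp ⊢
        omega
      · intro a ha
        simp only [mem_filter, mem_product, mem_range] at ha ⊢
        refine ⟨⟨by omega, by omega⟩, by push_cast; ring⟩
      · intro p hp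
        simp only [mem_filter, mem_product, mem_range] at hp
        ext <;> simp
        omega
      · intro a _
        rfl
    rw [h1, card_range, Nat.cast_sub hn]
    simp
  · have hn : n ≤ H := by
      rw [abs_neg, abs_of_nonneg (Int.natCast_nonneg n)] at ht
      exact_mod_cast ht
    have h1 : ((range H ×ˢ range H).filter fun p : ℕ × ℕ => (p.1 : ℤ) - p.2 = -(n : ℤ)).card =
        (range (H - n)).card := by
      refine card_bij' (fun p _ => p.1) (fun a _ => (a, a + n)) ?_ ?_ ?_ ?_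
      · intro p hp
        simp only [mem_filter, mem_product, mem_range] at hp ⊢
        omega
      · intro a ha
        simp only [mem_filter, mem_product, mem_range] at ha ⊢
        refine ⟨⟨by omega, by omega⟩, by push_cast; ring⟩
      · intro p hp
        simp only [mem_filter, mem_product, mem_range] at hp
        ext <;> simp
        omega
      · intro a _
        rfl
    rw [h1, card_range, Nat.cast_sub hn]
    simp

/-- the Fejer average as a double sum -/
theorem fejer_eq (r : ℤ → ℝ) {H : ℕ} (hH : 0 < H) :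
    ∑ t ∈ Icc (-(H : ℤ)) H, fj H t * r t =
      (∑ a ∈ range H, ∑ b ∈ range H, r ((a : ℤ) - b)) / (H : ℝ) ^ 2 := by
  have hm : ∀ p ∈ range H ×ˢ range H, (p.1 : ℤ) - p.2 ∈ Icc (-(H : ℤ)) H := by
    intro p hp
    simp only [mem_product, mem_range] at hp
    rw [mem_Icc]
    omega
  have hH' : (H : ℝ) ≠ 0 := Nat.cast_ne_zero.2 hH.ne'
  have hHp : (0 : ℝ) < H := Nat.cast_pos.2 hH
  rw [← sum_product', ← sum_fiberwise_of_maps_to hm, sum_div]
  refine sum_congr rfl fun t ht => ?_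
  have ht' : |t| ≤ H := abs_le.2 (mem_Icc.1 ht)
  have h1 : ∀ p ∈ (range H ×ˢ range H).filter (fun p : ℕ × ℕ => (p.1 : ℤ) - p.2 = t),
      r ((p.1 : ℤ) - p.2) = r t := fun p hp => by rw [(mem_filter.1 hp).2]
  rw [sum_congr rfl h1, sum_const, nsmul_eq_mul, card_diff H t ht']
  have h2 : |(t : ℝ)| ≤ H := by
    have : ((|t| : ℤ) : ℝ) ≤ ((H : ℤ) : ℝ) := Int.cast_le.2 ht'
    rwa [Int.cast_abs, Int.cast_natCast] at this
  have h3 : 0 ≤ 1 - |(t : ℝ)| / H := by
    rw [sub_nonneg, div_le_one hHp]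
    exact h2
  unfold fj
  rw [max_eq_right h3]
  field_simp

theorem sum_range_mul' (H K : ℕ) (f : ℕ → ℝ) :
    ∑ i ∈ range (H * K), f i = ∑ k ∈ range K, ∑ a ∈ range H, f (H * k + a) := by
  induction K with
  | zero => simp
  | succ K ih => rw [Nat.mul_succ, sum_range_add, ih, sum_range_succ]

/-- VFM -/
theorem pf_VFM : T_VFM := by
  intro r hr hr1 H hH
  have hpos : ∀ M : ℕ, 0 ≤ ∑ a ∈ range M, ∑ b ∈ range M, r ((a : ℤ) - b) := by
    intro M
    have h := pd_fam hr (ι := Fin M) (fun a => ((a : ℕ) : ℤ)) (fun _ => 1)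
    simp only [one_mul] at h
    simpa only [sum_range] using h
  have hle : ∀ M : ℕ, ∑ a ∈ range M, ∑ b ∈ range M, r ((a : ℤ) - b) ≤ (M : ℝ) ^ 2 := by
    intro M
    calc ∑ a ∈ range M, ∑ b ∈ range M, r ((a : ℤ) - b) ≤ ∑ a ∈ range M, ∑ b ∈ range M, (1 : ℝ) :=
          sum_le_sum fun a _ => sum_le_sum fun b _ => (abs_le.1 (hr1 _)).2
      _ = (M : ℝ) ^ 2 := by simp [sq]
  have hHr : (0 : ℝ) < H := Nat.cast_pos.2 hH
  have h1 : 0 ≤ ∑ t ∈ Icc (-(H : ℤ)) H, fj H t * r t := by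
    rw [fejer_eq r hH]
    exact div_nonneg (hpos H) (by positivity)
  have h2 : ∀ K : ℕ, 0 < K → ∑ t ∈ Icc (-((H * K : ℕ) : ℤ)) (H * K : ℕ), fj (H * K) t * r t ≤
      ∑ t ∈ Icc (-(H : ℤ)) H, fj H t * r t := by
    intro K hK
    have hKr : (0 : ℝ) < K := Nat.cast_pos.2 hK
    rw [fejer_eq r hH, fejer_eq r (Nat.mul_pos hH hK)]
    have h3 : ∑ a ∈ range (H * K), ∑ b ∈ range (H * K), r ((a : ℤ) - b) ≤
        (K : ℝ) ^ 2 * ∑ a ∈ range H, ∑ b ∈ range H, r ((a : ℤ) - b) := by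
      rw [sum_range_mul']
      simp only [sum_range_mul']
      have h4 : ∀ k l : ℕ, ∑ a ∈ range H, ∑ b ∈ range H,
          r (((H * k + a : ℕ) : ℤ) - ((H * l + b : ℕ) : ℤ)) ≤
          ∑ a ∈ range H, ∑ b ∈ range H, r ((a : ℤ) - b) := by
        intro k l
        have h5 := pd_mean hr H (fun a => ((H * k + a : ℕ) : ℤ)) (fun a => ((H * l + a : ℕ) : ℤ))
        have h6 : ∀ k : ℕ, ∑ a ∈ range H, ∑ b ∈ range H,
            r (((H * k + a : ℕ) : ℤ) - ((H * k + b : ℕ) : ℤ)) =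
            ∑ a ∈ range H, ∑ b ∈ range H, r ((a : ℤ) - b) := by
          intro k
          refine sum_congr rfl fun a _ => sum_congr rfl fun b _ => ?_
          congr 1
          push_cast
          ring
        rw [h6 k, h6 l] at h5
        linarith
      calc ∑ k ∈ range K, ∑ a ∈ range H, ∑ l ∈ range K, ∑ b ∈ range H,
            r (((H * k + a : ℕ) : ℤ) - ((H * l + b : ℕ) : ℤ))
          = ∑ k ∈ range K, ∑ l ∈ range K, ∑ a ∈ range H, ∑ b ∈ range H,
            r (((H * k + a : ℕ) : ℤ) - ((H * l + b : ℕ) : ℤ)) :=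
            sum_congr rfl fun k _ => sum_comm
        _ ≤ ∑ k ∈ range K, ∑ l ∈ range K, ∑ a ∈ range H, ∑ b ∈ range H, r ((a : ℤ) - b) :=
            sum_le_sum fun k _ => sum_le_sum fun l _ => h4 k l
        _ = (K : ℝ) ^ 2 * ∑ a ∈ range H, ∑ b ∈ range H, r ((a : ℤ) - b) := by
            rw [sum_const, sum_const, card_range, smul_smul, nsmul_eq_mul]
            push_cast
            ring
    rw [div_le_div_iff₀ (by positivity) (by positivity)]
    push_cast
    calc (∑ a ∈ range (H * K), ∑ b ∈ range (H * K), r ((a : ℤ) - b)) * (H : ℝ) ^ 2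
        ≤ ((K : ℝ) ^ 2 * ∑ a ∈ range H, ∑ b ∈ range H, r ((a : ℤ) - b)) * (H : ℝ) ^ 2 :=
          mul_le_mul_of_nonneg_right h3 (by positivity)
      _ = (∑ a ∈ range H, ∑ b ∈ range H, r ((a : ℤ) - b)) * ((H : ℝ) * K) ^ 2 := by ring
  refine ⟨h1, h2, fun N hN => ?_⟩
  have hNr : (0 : ℝ) < N := Nat.cast_pos.2 hN
  by_cases hNH : N < H
  · have h3 : ∑ t ∈ Icc (-(N : ℤ)) N, fj N t * r t ≤ 1 := by
      rw [fejer_eq r hN, div_le_one (by positivity)]
      exact hle N
    have h4 : (1 : ℝ) ≤ 4 * H / N := by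
      rw [le_div_iff₀ hNr]
      have : (N : ℝ) ≤ H := Nat.cast_le.2 hNH.le
      linarith
    linarith
  · rw [not_lt] at hNH
    obtain ⟨K, hK⟩ : ∃ K, K = N / H := ⟨_, rfl⟩
    have hK0 : 0 < K := by
      rw [hK]
      exact Nat.div_pos hNH hH
    have hMN : H * K ≤ N := by
      rw [hK]
      exact Nat.mul_div_le N H
    have hNM : N < H * K + H := by
      rw [hK]
      have := Nat.lt_mul_div_succ N hH
      rwa [Nat.mul_add, mul_one] at this
    have h3 := h2 K hK0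
    obtain ⟨M, hM⟩ : ∃ M, M = H * K := ⟨_, rfl⟩
    rw [← hM] at h3 hMN hNM
    have hM0 : 0 < M := by
      rw [hM]
      exact Nat.mul_pos hH hK0
    have hMr : (0 : ℝ) < M := Nat.cast_pos.2 hM0
    refine le_trans ?_ (add_le_add_left h3 (4 * (H : ℝ) / N))
    rw [fejer_eq r hN, fejer_eq r hM0]
    have h4 : (M : ℝ) ^ 2 - ∑ a ∈ range M, ∑ b ∈ range M, r ((a : ℤ) - b) ≤
        (N : ℝ) ^ 2 - ∑ a ∈ range N, ∑ b ∈ range N, r ((a : ℤ) - b) := by
      have h5 : ∀ M : ℕ, (M : ℝ) ^ 2 - ∑ a ∈ range M, ∑ b ∈ range M, r ((a : ℤ) - b) =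
          ∑ a ∈ range M, ∑ b ∈ range M, (1 - r ((a : ℤ) - b)) := by
        intro M
        simp only [sum_sub_distrib]
        simp [sq]
      rw [h5, h5]
      have hsub : range M ⊆ range N := range_subset_range.2 hMN
      have h6 : ∀ a b : ℕ, 0 ≤ 1 - r ((a : ℤ) - b) := fun a b => by
        have := (abs_le.1 (hr1 ((a : ℤ) - b))).2
        linarith
      calc ∑ a ∈ range M, ∑ b ∈ range M, (1 - r ((a : ℤ) - b))
          ≤ ∑ a ∈ range M, ∑ b ∈ range N, (1 - r ((a : ℤ) - b)) :=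
            sum_le_sum fun a _ => sum_le_sum_of_subset_of_nonneg hsub fun b _ _ => h6 a b
        _ ≤ ∑ a ∈ range N, ∑ b ∈ range N, (1 - r ((a : ℤ) - b)) :=
            sum_le_sum_of_subset_of_nonneg hsub fun a _ _ => sum_nonneg fun b _ => h6 a b
    have hMN' : (M : ℝ) ≤ N := Nat.cast_le.2 hMN
    have hNM' : (N : ℝ) ≤ M + H := by
      have : (N : ℝ) ≤ ((M + H : ℕ) : ℝ) := Nat.cast_le.2 hNM.le
      push_cast at this
      exact this
    obtain ⟨A, hA⟩ : ∃ A, A = ∑ a ∈ range M, ∑ b ∈ range M, r ((a : ℤ) - b) := ⟨_, rfl⟩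
    have hA0 : 0 ≤ A := by rw [hA]; exact hpos M
    rw [← hA] at h4 ⊢
    have h7 : (∑ a ∈ range N, ∑ b ∈ range N, r ((a : ℤ) - b)) / (N : ℝ) ^ 2 ≤
        (A + ((N : ℝ) ^ 2 - (M : ℝ) ^ 2)) / (N : ℝ) ^ 2 :=
      div_le_div_of_nonneg_right (by linarith) (by positivity)
    have h8 : A / (N : ℝ) ^ 2 ≤ A / (M : ℝ) ^ 2 :=
      div_le_div_of_nonneg_left hA0 (by positivity) (by gcongr)
    have h9 : ((N : ℝ) ^ 2 - (M : ℝ) ^ 2) / (N : ℝ) ^ 2 ≤ 4 * H / N := by
      rw [div_le_div_iff₀ (by positivity) hNr]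
      have h10 : (N : ℝ) ^ 2 - (M : ℝ) ^ 2 ≤ 2 * H * N := by nlinarith
      calc ((N : ℝ) ^ 2 - (M : ℝ) ^ 2) * N ≤ 2 * H * N * N :=
            mul_le_mul_of_nonneg_right h10 hNr.le
        _ ≤ 4 * H * (N : ℝ) ^ 2 := by nlinarith [mul_pos hHr (mul_pos hNr hNr)]
    rw [add_div] at h7
    linarith

end Pool.Agent.H5.AG
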